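import Mathlib

/-! Row A (Fischer form) for MP_0ddb56: kissing configurations in dimension 16. -/

set_option autoImplicit false

namespace Pool.Agent.Kiss34

open MvPolynomial Finset

variable {n : ℕ}

/-- The Fischer form: `⟨p, q⟩ = ∑_a a! p_a q_a`. -/
noncomputable def fisch (p q : MvPolynomial (Fin n) ℝ) : ℝ :=
  ∑ a ∈ p.support ∪ q.support, (∏ i, ((a i).factorial : ℝ)) * p.coeff a * q.coeff a

/-- The linear form `y · X`. -/
noncomputable def lin (y : Fin n → ℝ) : MvPolynomial (Fin n) ℝ := ∑ i, C (y i) * X i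

/-- `|X|²`. -/
noncomputable def rsq : MvPolynomial (Fin n) ℝ := ∑ i, X i ^ 2

/-- The Laplacian. -/
noncomputable def lap (p : MvPolynomial (Fin n) ℝ) : MvPolynomial (Fin n) ℝ :=
  ∑ i, pderiv i (pderiv i p)

theorem fisch_self_nonneg (p : MvPolynomial (Fin n) ℝ) : 0 ≤ fisch p p := by
  unfold fisch
  refine Finset.sum_nonneg fun a _ => ?_
  rw [mul_assoc]
  exact mul_nonneg (Finset.prod_nonneg fun i _ => Nat.cast_nonneg _) (mul_self_nonneg _)

theorem fisch_comm (p q : MvPolynomial (Fin n) ℝ) : fisch p q = fisch q p := by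
  unfold fisch
  rw [Finset.union_comm]
  refine Finset.sum_congr rfl fun a _ => ?_
  ring

/-- The form as a sum over any finite set which contains the support of `p`. -/
theorem fisch_eq_sum (p q : MvPolynomial (Fin n) ℝ) (s : Finset (Fin n →₀ ℕ))
    (hs : p.support ⊆ s) :
    fisch p q = ∑ a ∈ s, (∏ i, ((a i).factorial : ℝ)) * p.coeff a * q.coeff a := by
  classical
  have h : ∀ t : Finset (Fin n →₀ ℕ), p.support ⊆ t →
      ∑ a ∈ t, (∏ i, ((a i).factorial : ℝ)) * p.coeff a * q.coeff a =
        ∑ a ∈ p.support, (∏ i, ((a i).factorial : ℝ)) * p.coeff a * q.coeff a := by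
    intro t ht
    symm
    refine Finset.sum_subset ht fun a _ ha => ?_
    rw [MvPolynomial.notMem_support_iff.mp ha]
    ring
  unfold fisch
  rw [h _ Finset.subset_union_left, h s hs]

theorem fisch_add_left (p p' q : MvPolynomial (Fin n) ℝ) :
    fisch (p + p') q = fisch p q + fisch p' q := by
  classical
  rw [fisch_eq_sum (p + p') q (p.support ∪ p'.support) MvPolynomial.support_add,
    fisch_eq_sum p q (p.support ∪ p'.support) Finset.subset_union_left,
    fisch_eq_sum p' q (p.support ∪ p'.support) Finset.subset_union_right,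
    ← Finset.sum_add_distrib]
  refine Finset.sum_congr rfl fun a _ => ?_
  rw [MvPolynomial.coeff_add]
  ring

theorem fisch_C_mul_left (c : ℝ) (p q : MvPolynomial (Fin n) ℝ) :
    fisch (C c * p) q = c * fisch p q := by
  classical
  have h : (C c * p).support ⊆ p.support := by
    intro a ha
    rw [MvPolynomial.mem_support_iff, MvPolynomial.coeff_C_mul] at ha
    exact MvPolynomial.mem_support_iff.mpr (right_ne_zero_of_mul ha)
  rw [fisch_eq_sum (C c * p) q p.support h, fisch_eq_sum p q p.support subset_rfl,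
    Finset.mul_sum]
  refine Finset.sum_congr rfl fun a _ => ?_
  rw [MvPolynomial.coeff_C_mul]
  ring

theorem fisch_zero_left (q : MvPolynomial (Fin n) ℝ) : fisch 0 q = 0 := by
  rw [fisch_eq_sum 0 q ∅ (by simp)]
  simp

theorem fisch_sum_left {ι : Type*} (s : Finset ι) (f : ι → MvPolynomial (Fin n) ℝ)
    (q : MvPolynomial (Fin n) ℝ) : fisch (∑ i ∈ s, f i) q = ∑ i ∈ s, fisch (f i) q := by
  classical
  induction s using Finset.induction_on with
  | empty => simp [fisch_zero_left]
  | insert a s ha ih => rw [Finset.sum_insert ha, Finset.sum_insert ha, fisch_add_left, ih]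

theorem fisch_sum_right {ι : Type*} (s : Finset ι) (f : ι → MvPolynomial (Fin n) ℝ)
    (p : MvPolynomial (Fin n) ℝ) : fisch p (∑ i ∈ s, f i) = ∑ i ∈ s, fisch p (f i) := by
  rw [fisch_comm, fisch_sum_left]
  exact Finset.sum_congr rfl fun i _ => fisch_comm _ _

theorem fisch_add_right (p q q' : MvPolynomial (Fin n) ℝ) :
    fisch p (q + q') = fisch p q + fisch p q' := by
  rw [fisch_comm, fisch_add_left, fisch_comm q, fisch_comm q']

theorem fisch_C_mul_right (c : ℝ) (p q : MvPolynomial (Fin n) ℝ) :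
    fisch p (C c * q) = c * fisch p q := by
  rw [fisch_comm, fisch_C_mul_left, fisch_comm q]

theorem fisch_zero_right (p : MvPolynomial (Fin n) ℝ) : fisch p 0 = 0 := by
  rw [fisch_comm, fisch_zero_left]

theorem fisch_X_mul (i : Fin n) (p q : MvPolynomial (Fin n) ℝ) :
    fisch (X i * p) q = fisch p (pderiv i q) := by
  classical
  rw [fisch_eq_sum (X i * p) q _ subset_rfl, fisch_eq_sum p (pderiv i q) _ subset_rfl,
    MvPolynomial.support_X_mul, Finset.sum_map]
  refine Finset.sum_congr rfl fun a _ => ?_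
  simp only [addLeftEmbedding_apply]
  rw [MvPolynomial.coeff_X_mul, MvPolynomial.coeff_pderiv, add_comm (Finsupp.single i 1) a]
  have hw : (∏ j, (((a + Finsupp.single i 1 : Fin n →₀ ℕ) j).factorial : ℝ)) =
      ((a i : ℝ) + 1) * ∏ j, ((a j).factorial : ℝ) := by
    rw [← Finset.mul_prod_erase Finset.univ _ (Finset.mem_univ i),
      ← Finset.mul_prod_erase Finset.univ (fun j => ((a j).factorial : ℝ)) (Finset.mem_univ i)]
    have h1 : ((a + Finsupp.single i 1 : Fin n →₀ ℕ) i) = a i + 1 := by simp
    rw [h1, Nat.factorial_succ]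
    have h2 : ∏ j ∈ Finset.univ.erase i,
        (((a + Finsupp.single i 1 : Fin n →₀ ℕ) j).factorial : ℝ) =
        ∏ j ∈ Finset.univ.erase i, ((a j).factorial : ℝ) := by
      refine Finset.prod_congr rfl fun j hj => ?_
      have hji : j ≠ i := Finset.ne_of_mem_erase hj
      have h3 : ((a + Finsupp.single i 1 : Fin n →₀ ℕ) j) = a j := by
        simp [hji.symm]
      rw [h3]
    rw [h2]
    push_cast
    ring
  rw [hw]
  ring

theorem fisch_rsq_mul (p q : MvPolynomial (Fin n) ℝ) :
    fisch (rsq * p) q = fisch p (lap q) := by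
  unfold rsq lap
  rw [Finset.sum_mul, fisch_sum_left, fisch_sum_right]
  refine Finset.sum_congr rfl fun i _ => ?_
  rw [pow_two, mul_assoc, fisch_X_mul, fisch_X_mul]

theorem fisch_one_left (q : MvPolynomial (Fin n) ℝ) : fisch 1 q = q.coeff 0 := by
  classical
  rw [fisch_eq_sum 1 q {0} (by rw [MvPolynomial.support_one]), Finset.sum_singleton]
  simp

theorem lin_mul (y : Fin n → ℝ) (p : MvPolynomial (Fin n) ℝ) :
    lin y * p = ∑ i, C (y i) * (X i * p) := by
  unfold lin
  rw [Finset.sum_mul]
  exact Finset.sum_congr rfl fun i _ => mul_assoc _ _ _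

theorem fisch_lin_pow (y : Fin n → ℝ) (k : ℕ) (q : MvPolynomial (Fin n) ℝ)
    (hq : q.IsHomogeneous k) :
    fisch (lin y ^ k) q = (k.factorial : ℝ) * eval y q := by
  induction k generalizing q with
  | zero =>
    rw [pow_zero, fisch_one_left]
    have h : q.totalDegree = 0 := Nat.le_zero.mp hq.totalDegree_le
    rw [MvPolynomial.totalDegree_eq_zero_iff_eq_C] at h
    rw [h]
    simp
  | succ k ih =>
    rw [pow_succ', lin_mul, fisch_sum_left]
    have h2 : ∀ i : Fin n, fisch (C (y i) * (X i * lin y ^ k)) q =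
        (k.factorial : ℝ) * eval y (X i * pderiv i q) := by
      intro i
      rw [fisch_C_mul_left, fisch_X_mul, ih _ (by simpa using hq.pderiv (i := i))]
      rw [map_mul, eval_X]
      ring
    rw [Finset.sum_congr rfl fun i _ => h2 i, ← Finset.mul_sum, ← map_sum,
      hq.sum_X_mul_pderiv, Nat.factorial_succ]
    rw [map_nsmul, nsmul_eq_mul]
    push_cast
    ring

end Pool.Agent.Kiss34
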