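import Pool.Agent.Kiss34.Fischer

/-! Row B (zonal harmonics) for MP_0ddb56. -/

set_option autoImplicit false

namespace Pool.Agent.Kiss34

open MvPolynomial Finset

variable {n : ℕ}

/-- `∑_{j < r} a_j |X|^{2j} (y · X)^{k - 2j}`. -/
noncomputable def zon (a : ℕ → ℝ) (r k : ℕ) (y : Fin n → ℝ) : MvPolynomial (Fin n) ℝ :=
  ∑ j ∈ range r, C (a j) * (rsq ^ j * lin y ^ (k - 2 * j))

theorem pderiv_rsq (i : Fin n) : pderiv i (rsq : MvPolynomial (Fin n) ℝ) = C 2 * X i := by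
  classical
  unfold rsq
  rw [map_sum, Finset.sum_eq_single i]
  · rw [Derivation.leibniz_pow, pderiv_X_self]
    simp only [Nat.add_one_sub_one, pow_one, smul_eq_mul, mul_one, nsmul_eq_mul]
    rfl
  · intro j _ hj
    rw [Derivation.leibniz_pow, pderiv_X_of_ne hj]
    simp
  · intro h
    exact absurd (Finset.mem_univ i) h

theorem pderiv_lin (i : Fin n) (y : Fin n → ℝ) : pderiv i (lin y) = C (y i) := by
  classical
  unfold lin
  rw [map_sum, Finset.sum_eq_single i]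
  · rw [pderiv_C_mul, pderiv_X_self, mul_one]
  · intro j _ hj
    rw [pderiv_C_mul, pderiv_X_of_ne hj, mul_zero]
  · intro h
    exact absurd (Finset.mem_univ i) h

theorem pderiv_rsq_pow (i : Fin n) (j : ℕ) :
    pderiv i ((rsq : MvPolynomial (Fin n) ℝ) ^ j) = C (2 * (j : ℝ)) * (rsq ^ (j - 1) * X i) := by
  rw [Derivation.leibniz_pow, pderiv_rsq, smul_eq_mul, nsmul_eq_mul, C_mul]
  have h : (C (j : ℝ) : MvPolynomial (Fin n) ℝ) = (j : MvPolynomial (Fin n) ℝ) := by simp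
  rw [h]
  ring

theorem pderiv_lin_pow (i : Fin n) (y : Fin n → ℝ) (l : ℕ) :
    pderiv i (lin y ^ l) = C ((l : ℝ) * y i) * lin y ^ (l - 1) := by
  rw [Derivation.leibniz_pow, pderiv_lin, smul_eq_mul, nsmul_eq_mul, C_mul]
  have h : (C (l : ℝ) : MvPolynomial (Fin n) ℝ) = (l : MvPolynomial (Fin n) ℝ) := by simp
  rw [h]
  ring

theorem pderiv_term (i : Fin n) (y : Fin n → ℝ) (j l : ℕ) :
    pderiv i (rsq ^ j * lin y ^ l) =
      C (2 * (j : ℝ)) * (rsq ^ (j - 1) * X i * lin y ^ l) +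
      C ((l : ℝ) * y i) * (rsq ^ j * lin y ^ (l - 1)) := by
  rw [Derivation.leibniz, pderiv_rsq_pow, pderiv_lin_pow, smul_eq_mul, smul_eq_mul]
  ring

theorem pderiv_term_X (i : Fin n) (y : Fin n → ℝ) (j l : ℕ) :
    pderiv i (rsq ^ j * X i * lin y ^ l) =
      C (2 * (j : ℝ)) * (rsq ^ (j - 1) * lin y ^ l * X i ^ 2) +
      rsq ^ j * lin y ^ l +
      C (l : ℝ) * (rsq ^ j * lin y ^ (l - 1) * (C (y i) * X i)) := by
  have h : (rsq ^ j * X i * lin y ^ l : MvPolynomial (Fin n) ℝ) =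
      X i * (rsq ^ j * lin y ^ l) := by ring
  rw [h, Derivation.leibniz, pderiv_term, pderiv_X_self, smul_eq_mul, smul_eq_mul]
  simp only [C_mul]
  ring

theorem lap_rsq_lin (y : Fin n → ℝ) (hy : ∑ i, y i ^ 2 = 1) (j l : ℕ) :
    lap (rsq ^ j * lin y ^ l) =
      C ((2 * j * (n + 2 * j - 2 : ℝ) + 4 * j * l)) * (rsq ^ (j - 1) * lin y ^ l) +
      C ((l : ℝ) * (l - 1)) * (rsq ^ j * lin y ^ (l - 2)) := by
  have hyC : ∑ i, (C (y i) : MvPolynomial (Fin n) ℝ) ^ 2 = 1 := by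
    have : ∑ i, (C (y i) : MvPolynomial (Fin n) ℝ) ^ 2 = C (∑ i, y i ^ 2) := by
      rw [map_sum]
      exact Finset.sum_congr rfl fun i _ => by rw [C_pow]
    rw [this, hy, C_1]
  have h1 : ∀ i : Fin n, pderiv i (pderiv i (rsq ^ j * lin y ^ l)) =
      (C (2 * (j : ℝ)) * C (2 * ((j - 1 : ℕ) : ℝ)) * (rsq ^ (j - 1 - 1) * lin y ^ l)) * X i ^ 2 +
      C (2 * (j : ℝ)) * (rsq ^ (j - 1) * lin y ^ l) +
      (C (4 * (j : ℝ) * (l : ℝ)) * (rsq ^ (j - 1) * lin y ^ (l - 1))) * (C (y i) * X i) +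
      (C (l : ℝ) * C ((l - 1 : ℕ) : ℝ) * (rsq ^ j * lin y ^ (l - 1 - 1))) * C (y i) ^ 2 := by
    intro i
    rw [pderiv_term, map_add, pderiv_C_mul, pderiv_C_mul, pderiv_term_X, pderiv_term]
    simp only [C_mul]
    have h4 : (C 4 : MvPolynomial (Fin n) ℝ) = 2 * C 2 := by
      have h5 : (2 : MvPolynomial (Fin n) ℝ) = C 2 := (map_ofNat C 2).symm
      rw [h5, ← C_mul]
      norm_num
    rw [h4]
    ring
  unfold lap
  rw [Finset.sum_congr rfl fun i _ => h1 i]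
  simp only [Finset.sum_add_distrib, ← Finset.mul_sum]
  rw [hyC]
  have hr : ∑ i : Fin n, (X i : MvPolynomial (Fin n) ℝ) ^ 2 = rsq := rfl
  have hl : ∑ i : Fin n, (C (y i) * X i : MvPolynomial (Fin n) ℝ) = lin y := rfl
  rw [hr, hl, Finset.sum_const, Finset.card_univ, Fintype.card_fin, nsmul_eq_mul]
  have hn : (n : MvPolynomial (Fin n) ℝ) = C (n : ℝ) := by simp
  rw [hn]
  have e1 : (C (2 * (j : ℝ)) * C (2 * ((j - 1 : ℕ) : ℝ)) * (rsq ^ (j - 1 - 1) * lin y ^ l)) * rsq =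
      (C (4 * (j : ℝ) * ((j : ℝ) - 1)) * (rsq ^ (j - 1) * lin y ^ l) :
        MvPolynomial (Fin n) ℝ) := by
    rcases j with _ | _ | j
    · simp
    · simp
    · have e : j + 1 + 1 - 1 - 1 = j := by omega
      have e' : j + 1 + 1 - 1 = j + 1 := by omega
      rw [e, e', ← C_mul]
      have : (2 * ((j + 1 + 1 : ℕ) : ℝ) * (2 * ((j + 1 : ℕ) : ℝ))) =
          4 * ((j + 1 + 1 : ℕ) : ℝ) * (((j + 1 + 1 : ℕ) : ℝ) - 1) := by
        push_cast
        ring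
      rw [this]
      ring
  have e2 : (C (4 * (j : ℝ) * (l : ℝ)) * (rsq ^ (j - 1) * lin y ^ (l - 1))) * lin y =
      (C (4 * (j : ℝ) * (l : ℝ)) * (rsq ^ (j - 1) * lin y ^ l) : MvPolynomial (Fin n) ℝ) := by
    rcases l with _ | l
    · simp
    · have e : l + 1 - 1 = l := by omega
      rw [e]
      ring
  have e3 : (C (l : ℝ) * C ((l - 1 : ℕ) : ℝ) * (rsq ^ j * lin y ^ (l - 1 - 1))) * 1 =
      (C ((l : ℝ) * ((l : ℝ) - 1)) * (rsq ^ j * lin y ^ (l - 2)) : MvPolynomial (Fin n) ℝ) := by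
    rcases l with _ | l
    · simp
    · have e : l + 1 - 1 = l := by omega
      have e' : l + 1 - 1 - 1 = l + 1 - 2 := by omega
      rw [e', e, ← C_mul]
      push_cast
      have : ((l : ℝ) + 1) * (l : ℝ) = ((l : ℝ) + 1) * ((l : ℝ) + 1 - 1) := by ring
      rw [this]
      ring
  rw [e1, e2, e3]
  have e4 : (C (2 * (j : ℝ) * ((n : ℝ) + 2 * j - 2) + 4 * j * l) : MvPolynomial (Fin n) ℝ) =
      C (4 * (j : ℝ) * ((j : ℝ) - 1)) + C (n : ℝ) * C (2 * (j : ℝ)) +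
        C (4 * (j : ℝ) * (l : ℝ)) := by
    rw [← C_mul, ← C_add, ← C_add]
    congr 1
    ring
  rw [e4]
  ring

theorem lap_add (p q : MvPolynomial (Fin n) ℝ) : lap (p + q) = lap p + lap q := by
  unfold lap
  simp only [map_add, Finset.sum_add_distrib]

theorem lap_C_mul (c : ℝ) (p : MvPolynomial (Fin n) ℝ) : lap (C c * p) = C c * lap p := by
  unfold lap
  simp only [pderiv_C_mul, Finset.mul_sum]

theorem lap_sum {ι : Type*} (s : Finset ι) (f : ι → MvPolynomial (Fin n) ℝ) :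
    lap (∑ i ∈ s, f i) = ∑ i ∈ s, lap (f i) := by
  unfold lap
  simp only [map_sum]
  exact Finset.sum_comm

/-- If the coefficients satisfy the recurrence, `zon` is harmonic. -/
theorem lap_zon (a : ℕ → ℝ) (k : ℕ) (y : Fin n → ℝ) (hy : ∑ i, y i ^ 2 = 1)
    (ha : ∀ j, 2 * (j + 1) ≤ k →
      a (j + 1) * (2 * (j + 1) * (n + 2 * k - 2 * j - 4)) +
        a j * ((k - 2 * j) * (k - 2 * j - 1)) = 0) :
    lap (zon a (k / 2 + 1) k y) = 0 := by
  unfold zon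
  rw [lap_sum]
  have h1 : ∀ j ∈ range (k / 2 + 1),
      lap (C (a j) * (rsq ^ j * lin y ^ (k - 2 * j))) =
        C (a j * (2 * (j : ℝ) * (n + 2 * k - 2 * j - 2))) *
          (rsq ^ (j - 1) * lin y ^ (k - 2 * j)) +
        C (a j * (((k : ℝ) - 2 * j) * (k - 2 * j - 1))) *
          (rsq ^ j * lin y ^ (k - 2 * j - 2)) := by
    intro j hj
    have hj' : 2 * j ≤ k := by
      have := Finset.mem_range.mp hj
      omega
    rw [lap_C_mul, lap_rsq_lin y hy, mul_add, ← mul_assoc (C (a j)), ← mul_assoc (C (a j)),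
      ← C_mul, ← C_mul]
    have hc : ((k - 2 * j : ℕ) : ℝ) = (k : ℝ) - 2 * j := by
      rw [Nat.cast_sub hj']
      push_cast
      ring
    rw [hc]
    have : a j * (2 * (j : ℝ) * ((n : ℝ) + 2 * j - 2) + 4 * j * ((k : ℝ) - 2 * j)) =
        a j * (2 * (j : ℝ) * (n + 2 * k - 2 * j - 2)) := by ring
    rw [this]
  rw [Finset.sum_congr rfl h1, Finset.sum_add_distrib]
  -- the first sum, shifted
  rw [Finset.sum_range_succ' (fun j => C (a j * (2 * (j : ℝ) * (n + 2 * k - 2 * j - 2))) *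
          (rsq ^ (j - 1) * lin y ^ (k - 2 * j))),
    Finset.sum_range_succ (fun j => C (a j * (((k : ℝ) - 2 * j) * (k - 2 * j - 1))) *
          (rsq ^ j * lin y ^ (k - 2 * j - 2)))]
  have hlast : (C (a (k / 2) * (((k : ℝ) - 2 * ((k / 2 : ℕ) : ℝ)) *
      ((k : ℝ) - 2 * ((k / 2 : ℕ) : ℝ) - 1))) : MvPolynomial (Fin n) ℝ) = 0 := by
    have h2 : k = 2 * (k / 2) + k % 2 := (Nat.div_add_mod k 2).symm
    have h3 : (k : ℝ) = 2 * ((k / 2 : ℕ) : ℝ) + ((k % 2 : ℕ) : ℝ) := by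
      exact_mod_cast h2
    have h4 : (k : ℝ) - 2 * ((k / 2 : ℕ) : ℝ) = ((k % 2 : ℕ) : ℝ) := by linarith
    rw [h4]
    rcases Nat.mod_two_eq_zero_or_one k with h5 | h5 <;> rw [h5] <;> simp
  rw [hlast]
  have h0 : (C (a 0 * (2 * ((0 : ℕ) : ℝ) * (n + 2 * k - 2 * ((0 : ℕ) : ℝ) - 2))) :
      MvPolynomial (Fin n) ℝ) = 0 := by simp
  rw [h0, zero_mul, zero_mul, add_zero, add_zero, ← Finset.sum_add_distrib]
  refine Finset.sum_eq_zero fun j hj => ?_
  have hj' : 2 * (j + 1) ≤ k := by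
    have := Finset.mem_range.mp hj
    omega
  have e1 : j + 1 - 1 = j := by omega
  have e2 : k - 2 * (j + 1) = k - 2 * j - 2 := by omega
  rw [e1, e2, ← add_mul, ← C_add]
  have e3 : a (j + 1) * (2 * ((j + 1 : ℕ) : ℝ) * ((n : ℝ) + 2 * k - 2 * ((j + 1 : ℕ) : ℝ) - 2)) +
      a j * (((k : ℝ) - 2 * j) * (k - 2 * j - 1)) = 0 := by
    have := ha j hj'
    push_cast
    linear_combination this
  rw [e3]
  simp

theorem lin_hom (y : Fin n → ℝ) : (lin y).IsHomogeneous 1 := by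
  unfold lin
  refine MvPolynomial.IsHomogeneous.sum _ _ _ fun i _ => ?_
  have := (isHomogeneous_C (Fin n) (y i)).mul (isHomogeneous_X ℝ i)
  simpa using this

theorem rsq_hom : (rsq : MvPolynomial (Fin n) ℝ).IsHomogeneous 2 := by
  unfold rsq
  refine MvPolynomial.IsHomogeneous.sum _ _ _ fun i _ => ?_
  have := (isHomogeneous_X ℝ i).pow 2
  simpa using this

theorem zon_hom (a : ℕ → ℝ) (k : ℕ) (y : Fin n → ℝ) :
    (zon a (k / 2 + 1) k y).IsHomogeneous k := by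
  unfold zon
  refine MvPolynomial.IsHomogeneous.sum _ _ _ fun j hj => ?_
  have hj' : 2 * j ≤ k := by
    have := Finset.mem_range.mp hj
    omega
  have h := (isHomogeneous_C (Fin n) (a j)).mul
    (((rsq_hom (n := n)).pow j).mul ((lin_hom y).pow (k - 2 * j)))
  have e : 0 + (2 * j + 1 * (k - 2 * j)) = k := by omega
  rw [e] at h
  exact h

theorem eval_rsq (x : Fin n → ℝ) : eval x (rsq : MvPolynomial (Fin n) ℝ) = ∑ i, x i ^ 2 := by
  unfold rsq
  simp [map_sum]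

theorem eval_lin (x y : Fin n → ℝ) : eval x (lin y) = ∑ i, x i * y i := by
  unfold lin
  rw [map_sum]
  refine Finset.sum_congr rfl fun i _ => ?_
  simp [mul_comm]

theorem eval_zon (a : ℕ → ℝ) (k : ℕ) (x y : Fin n → ℝ) (hx : ∑ i, x i ^ 2 = 1) :
    eval x (zon a (k / 2 + 1) k y) =
      ∑ j ∈ range (k / 2 + 1), a j * (∑ i, x i * y i) ^ (k - 2 * j) := by
  unfold zon
  rw [map_sum]
  refine Finset.sum_congr rfl fun j _ => ?_
  rw [map_mul, map_mul, map_pow, map_pow, eval_rsq, eval_lin, hx, eval_C]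
  ring

theorem fisch_zon (a : ℕ → ℝ) (k : ℕ) (x y : Fin n → ℝ) (hx : ∑ i, x i ^ 2 = 1)
    (hy : ∑ i, y i ^ 2 = 1)
    (ha : ∀ j, 2 * (j + 1) ≤ k →
      a (j + 1) * (2 * (j + 1) * (n + 2 * k - 2 * j - 4)) +
        a j * ((k - 2 * j) * (k - 2 * j - 1)) = 0) :
    fisch (zon a (k / 2 + 1) k x) (zon a (k / 2 + 1) k y) =
      a 0 * (k.factorial : ℝ) *
        ∑ j ∈ range (k / 2 + 1), a j * (∑ i, x i * y i) ^ (k - 2 * j) := by
  have h1 : fisch (zon a (k / 2 + 1) k x) (zon a (k / 2 + 1) k y) =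
      fisch (C (a 0) * lin x ^ k) (zon a (k / 2 + 1) k y) := by
    conv_lhs => unfold zon
    rw [Finset.sum_range_succ', fisch_add_left, fisch_sum_left]
    have h2 : ∑ j ∈ range (k / 2), fisch (C (a (j + 1)) *
        (rsq ^ (j + 1) * lin x ^ (k - 2 * (j + 1))))
        (∑ j ∈ range (k / 2 + 1), C (a j) * (rsq ^ j * lin y ^ (k - 2 * j))) = 0 := by
      refine Finset.sum_eq_zero fun j _ => ?_
      rw [fisch_C_mul_left, pow_succ', mul_assoc, fisch_rsq_mul]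
      have h3 := lap_zon a k y hy ha
      unfold zon at h3
      rw [h3, fisch_zero_right, mul_zero]
    rw [h2, zero_add]
    simp [zon]
  rw [h1, fisch_C_mul_left, fisch_lin_pow _ _ _ (zon_hom a k y), eval_zon a k x y hx]
  ring

/-- Positivity of the zonal kernel. -/
theorem zonal_nonneg (a : ℕ → ℝ) (k : ℕ) (ha0 : 0 < a 0)
    (ha : ∀ j, 2 * (j + 1) ≤ k →
      a (j + 1) * (2 * (j + 1) * (n + 2 * k - 2 * j - 4)) +
        a j * ((k - 2 * j) * (k - 2 * j - 1)) = 0)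
    (S : Finset (Fin n → ℝ)) (hS : ∀ x ∈ S, ∑ i, x i ^ 2 = 1) :
    0 ≤ ∑ x ∈ S, ∑ y ∈ S, ∑ j ∈ range (k / 2 + 1), a j * (∑ i, x i * y i) ^ (k - 2 * j) := by
  have h := fisch_self_nonneg (∑ x ∈ S, zon a (k / 2 + 1) k x)
  rw [fisch_sum_left] at h
  have h2 : ∑ x ∈ S, fisch (zon a (k / 2 + 1) k x) (∑ y ∈ S, zon a (k / 2 + 1) k y) =
      a 0 * (k.factorial : ℝ) * ∑ x ∈ S, ∑ y ∈ S, ∑ j ∈ range (k / 2 + 1),
        a j * (∑ i, x i * y i) ^ (k - 2 * j) := by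
    rw [Finset.mul_sum]
    refine Finset.sum_congr rfl fun x hx => ?_
    rw [fisch_sum_right, Finset.mul_sum]
    refine Finset.sum_congr rfl fun y hy => ?_
    rw [fisch_zon a k x y (hS x hx) (hS y hy) ha]
  rw [h2] at h
  have hpos : 0 < a 0 * (k.factorial : ℝ) := by
    have : (0 : ℝ) < (k.factorial : ℝ) := by exact_mod_cast Nat.factorial_pos k
    positivity
  exact nonneg_of_mul_nonneg_right h hpos

end Pool.Agent.Kiss34
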