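import Pool.Agent.Kiss34.Geg

/-! Row C (linear programming bound, n = 16) for MP_0ddb56. -/

set_option autoImplicit false

namespace Pool.Agent.Kiss34

open Finset

/-- The monic zonal polynomials of degree at most 7 in dimension 16. -/
noncomputable def gp : Fin 8 → ℝ → ℝ :=
  ![fun _ => 1, fun t => t, fun t => t ^ 2 - 1 / 16, fun t => t ^ 3 - 1 / 6 * t,
    fun t => t ^ 4 - 3 / 10 * t ^ 2 + 1 / 120, fun t => t ^ 5 - 5 / 11 * t ^ 3 + 3 / 88 * t,
    fun t => t ^ 6 - 5 / 8 * t ^ 4 + 15 / 176 * t ^ 2 - 1 / 704,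
    fun t => t ^ 7 - 21 / 26 * t ^ 5 + 35 / 208 * t ^ 3 - 35 / 4576 * t]

/-- Positivity for one zonal polynomial with given coefficients. -/
theorem gp_aux (k : ℕ) (a : ℕ → ℝ) (ha0 : 0 < a 0)
    (ha : ∀ j, 2 * (j + 1) ≤ k →
      a (j + 1) * (2 * (j + 1) * (((16 : ℕ) : ℝ) + 2 * k - 2 * j - 4)) +
        a j * ((k - 2 * j) * (k - 2 * j - 1)) = 0)
    (g : ℝ → ℝ) (hg : ∀ t, g t = ∑ j ∈ range (k / 2 + 1), a j * t ^ (k - 2 * j))
    (S : Finset (EuclideanSpace ℝ (Fin 16))) (hS : ∀ x ∈ S, ‖x‖ = 1) :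
    0 ≤ ∑ x ∈ S, ∑ y ∈ S, g (inner ℝ x y) := by
  classical
  let e : EuclideanSpace ℝ (Fin 16) ↪ (Fin 16 → ℝ) :=
    (WithLp.equiv 2 (Fin 16 → ℝ)).toEmbedding
  have hmem : ∀ z ∈ S.map e, ∑ i, z i ^ 2 = 1 := by
    intro z hz
    obtain ⟨x, hx, rfl⟩ := Finset.mem_map.mp hz
    have h1 := hS x hx
    have h2 : ‖x‖ ^ 2 = ∑ i, x i ^ 2 := by
      rw [EuclideanSpace.real_norm_sq_eq]
    rw [h1] at h2
    have h3 : ∀ i, e x i = x i := fun i => rfl
    simp only [h3]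
    rw [← h2]
    norm_num
  have h := zonal_nonneg (n := 16) a k ha0 ha (S.map e) hmem
  rw [Finset.sum_map] at h
  refine h.trans (le_of_eq ?_)
  refine Finset.sum_congr rfl fun x _ => ?_
  rw [Finset.sum_map]
  refine Finset.sum_congr rfl fun y _ => ?_
  rw [hg]
  have h4 : (∑ i, e x i * e y i) = (inner ℝ x y : ℝ) := by
    rw [PiLp.inner_apply]
    refine Finset.sum_congr rfl fun i _ => ?_
    have h3 : ∀ (z : EuclideanSpace ℝ (Fin 16)) (i : Fin 16), e z i = z i := fun z i => rfl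
    rw [h3, h3]
    simp [mul_comm]
  rw [h4]

theorem gp_nonneg (k : Fin 8) (S : Finset (EuclideanSpace ℝ (Fin 16)))
    (hS : ∀ x ∈ S, ‖x‖ = 1) : 0 ≤ ∑ x ∈ S, ∑ y ∈ S, gp k (inner ℝ x y) := by
  fin_cases k
  · refine gp_aux 0 (fun j => if j = 0 then 1 else 0) (by simp) ?_ (gp 0) ?_ S hS
    · intro j hj
      omega
    · intro t
      simp [gp]
  · refine gp_aux 1 (fun j => if j = 0 then 1 else 0) (by simp) ?_ (gp 1) ?_ S hS
    · intro j hj
      omega
    · intro t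
      simp [gp]
  · refine gp_aux 2 (fun j => if j = 0 then 1 else if j = 1 then -1 / 16 else 0)
      (by simp) ?_ (gp 2) ?_ S hS
    · intro j hj
      have hj' : j < 1 := by omega
      interval_cases j
      norm_num
    · intro t
      simp [gp, Finset.sum_range_succ]
      ring
  · refine gp_aux 3 (fun j => if j = 0 then 1 else if j = 1 then -1 / 6 else 0)
      (by simp) ?_ (gp 3) ?_ S hS
    · intro j hj
      have hj' : j < 1 := by omega
      interval_cases j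
      norm_num
    · intro t
      simp [gp, Finset.sum_range_succ]
      ring
  · refine gp_aux 4 (fun j => if j = 0 then 1 else if j = 1 then -3 / 10 else
      if j = 2 then 1 / 120 else 0) (by simp) ?_ (gp 4) ?_ S hS
    · intro j hj
      have hj' : j < 2 := by omega
      interval_cases j <;> norm_num
    · intro t
      simp [gp, Finset.sum_range_succ]
      ring
  · refine gp_aux 5 (fun j => if j = 0 then 1 else if j = 1 then -5 / 11 else
      if j = 2 then 3 / 88 else 0) (by simp) ?_ (gp 5) ?_ S hS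
    · intro j hj
      have hj' : j < 2 := by omega
      interval_cases j <;> norm_num
    · intro t
      simp [gp, Finset.sum_range_succ]
      ring
  · refine gp_aux 6 (fun j => if j = 0 then 1 else if j = 1 then -5 / 8 else
      if j = 2 then 15 / 176 else if j = 3 then -1 / 704 else 0) (by simp) ?_ (gp 6) ?_ S hS
    · intro j hj
      have hj' : j < 3 := by omega
      interval_cases j <;> norm_num
    · intro t
      simp [gp, Finset.sum_range_succ]
      ring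
  · refine gp_aux 7 (fun j => if j = 0 then 1 else if j = 1 then -21 / 26 else
      if j = 2 then 35 / 208 else if j = 3 then -35 / 4576 else 0) (by simp) ?_ (gp 7) ?_ S hS
    · intro j hj
      have hj' : j < 3 := by omega
      interval_cases j <;> norm_num
    · intro t
      simp [gp, Finset.sum_range_succ]
      ring

theorem inner_self_one {x : EuclideanSpace ℝ (Fin 16)} (hx : ‖x‖ = 1) :
    (inner ℝ x x : ℝ) = 1 := by
  rw [real_inner_self_eq_norm_sq, hx]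
  norm_num

/-- The linear programming inequality with the full double sum. -/
theorem lp_full (c : Fin 8 → ℝ) (hc : ∀ k, 0 ≤ c k) (f : ℝ → ℝ)
    (hf : ∀ t, f t = ∑ k, c k * gp k t)
    (S : Finset (EuclideanSpace ℝ (Fin 16))) (hS : ∀ x ∈ S, ‖x‖ = 1) :
    c 0 * (S.card : ℝ) ^ 2 ≤ ∑ x ∈ S, ∑ y ∈ S, f (inner ℝ x y) := by
  have h1 : ∑ x ∈ S, ∑ y ∈ S, f (inner ℝ x y) =
      ∑ k, c k * ∑ x ∈ S, ∑ y ∈ S, gp k (inner ℝ x y) := by
    simp only [hf, Finset.mul_sum]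
    symm
    rw [Finset.sum_comm]
    refine Finset.sum_congr rfl fun x _ => ?_
    rw [Finset.sum_comm]
  have h2 : c 0 * ∑ x ∈ S, ∑ y ∈ S, gp 0 (inner ℝ x y) ≤
      ∑ k, c k * ∑ x ∈ S, ∑ y ∈ S, gp k (inner ℝ x y) :=
    Finset.single_le_sum (f := fun k => c k * ∑ x ∈ S, ∑ y ∈ S, gp k (inner ℝ x y))
      (fun k _ => mul_nonneg (hc k) (gp_nonneg k S hS)) (Finset.mem_univ 0)
  have h3 : ∑ x ∈ S, ∑ y ∈ S, gp 0 (inner ℝ x y) = (S.card : ℝ) ^ 2 := by
    have h0 : ∀ t, gp 0 t = 1 := fun t => by simp [gp]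
    simp only [h0, Finset.sum_const, nsmul_eq_mul, mul_one]
    ring
  rw [h1]
  rw [h3] at h2
  exact h2

/-- The linear programming inequality. -/
theorem lp (c : Fin 8 → ℝ) (hc : ∀ k, 0 ≤ c k) (f : ℝ → ℝ) (hf : ∀ t, f t = ∑ k, c k * gp k t)
    (S : Finset (EuclideanSpace ℝ (Fin 16))) (hS : ∀ x ∈ S, ‖x‖ = 1) :
    c 0 * (S.card : ℝ) ^ 2 ≤
      (S.card : ℝ) * f 1 + ∑ x ∈ S, ∑ y ∈ S.erase x, f (inner ℝ x y) := by
  classical
  refine (lp_full c hc f hf S hS).trans (le_of_eq ?_)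
  have h : ∀ x ∈ S, ∑ y ∈ S, f (inner ℝ x y) = f 1 + ∑ y ∈ S.erase x, f (inner ℝ x y) := by
    intro x hx
    rw [← Finset.add_sum_erase S (fun y => f (inner ℝ x y)) hx, inner_self_one (hS x hx)]
  rw [Finset.sum_congr rfl h, Finset.sum_add_distrib]
  simp

theorem neg_ne_self' {x : EuclideanSpace ℝ (Fin 16)} (hx : ‖x‖ = 1) : -x ≠ x := by
  intro h
  have h1 : x = 0 := by
    have h2 : (2 : ℝ) • x = 0 := by
      rw [two_smul]
      nth_rewrite 1 [← h]
      simp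
    exact (smul_eq_zero.mp h2).resolve_left (by norm_num)
  rw [h1, norm_zero] at hx
  exact zero_ne_one hx

/-- Antipodal form, `f` even: both `y = x` and `y = -x` give `f 1`. -/
theorem lp_anti (c : Fin 8 → ℝ) (hc : ∀ k, 0 ≤ c k) (f : ℝ → ℝ)
    (hf : ∀ t, f t = ∑ k, c k * gp k t) (hev : ∀ t, f (-t) = f t)
    (S : Finset (EuclideanSpace ℝ (Fin 16))) (hS : ∀ x ∈ S, ‖x‖ = 1)
    (hneg : ∀ x ∈ S, -x ∈ S) :
    c 0 * (S.card : ℝ) ^ 2 ≤
      2 * (S.card : ℝ) * f 1 + ∑ x ∈ S, ∑ y ∈ (S.erase x).erase (-x), f (inner ℝ x y) := by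
  classical
  refine (lp_full c hc f hf S hS).trans (le_of_eq ?_)
  have h : ∀ x ∈ S, ∑ y ∈ S, f (inner ℝ x y) =
      2 * f 1 + ∑ y ∈ (S.erase x).erase (-x), f (inner ℝ x y) := by
    intro x hx
    rw [← Finset.add_sum_erase S (fun y => f (inner ℝ x y)) hx, inner_self_one (hS x hx)]
    have hm : -x ∈ S.erase x :=
      Finset.mem_erase.mpr ⟨neg_ne_self' (hS x hx), hneg x hx⟩
    rw [← Finset.add_sum_erase (S.erase x) (fun y => f (inner ℝ x y)) hm, inner_neg_right,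
      inner_self_one (hS x hx), hev]
    ring
  rw [Finset.sum_congr rfl h, Finset.sum_add_distrib]
  simp
  ring

/-- Certificate of the window theorem. -/
theorem win_cert (t : ℝ) :
    (t + 1) * t * (t ^ 2 - 1 / 4) * (t ^ 2 - 1 / 16) =
      ∑ k, ![(1 : ℝ) / 3072, 1 / 192, 17 / 704, 25 / 176, 5 / 16, 1, 1, 0] k * gp k t := by
  simp [gp, Fin.sum_univ_succ]
  ring

/-- Certificate of the antipodal window theorem. -/
theorem anti_cert (t : ℝ) :
    t ^ 2 * (t ^ 2 - 1 / 4) * (t ^ 2 - 1 / 16) =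
      ∑ k, ![(1 : ℝ) / 3072, 0, 17 / 704, 0, 5 / 16, 0, 1, 0] k * gp k t := by
  simp [gp, Fin.sum_univ_succ]
  ring

/-- Distinct points of a kissing configuration have inner product at most `1/2`. -/
theorem inner_le_half {x y : EuclideanSpace ℝ (Fin 16)} (hx : ‖x‖ = 1) (hy : ‖y‖ = 1)
    (h : 1 ≤ ‖x - y‖) : (inner ℝ x y : ℝ) ≤ 1 / 2 := by
  have h1 := norm_sub_sq_real x y
  rw [hx, hy] at h1
  nlinarith [norm_nonneg (x - y)]

theorem neg_one_le_inner {x y : EuclideanSpace ℝ (Fin 16)} (hx : ‖x‖ = 1) (hy : ‖y‖ = 1) :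
    -1 ≤ (inner ℝ x y : ℝ) := by
  have h1 := abs_real_inner_le_norm x y
  rw [hx, hy, one_mul] at h1
  exact (abs_le.mp h1).1

/-- General form for hand use: if `f ≤ 0` at the inner products of distinct points, then
`c 0 * card ≤ f 1`. -/
theorem card_le_of_cert (c : Fin 8 → ℝ) (hc : ∀ k, 0 ≤ c k) (f : ℝ → ℝ)
    (hf : ∀ t, f t = ∑ k, c k * gp k t)
    (S : Finset (EuclideanSpace ℝ (Fin 16))) (hS : ∀ x ∈ S, ‖x‖ = 1)
    (hle : ∀ x ∈ S, ∀ y ∈ S, x ≠ y → f (inner ℝ x y) ≤ 0) (h1 : 0 ≤ f 1) :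
    c 0 * (S.card : ℝ) ≤ f 1 := by
  classical
  have h := lp c hc f hf S hS
  have h2 : ∑ x ∈ S, ∑ y ∈ S.erase x, f (inner ℝ x y) ≤ 0 := by
    refine Finset.sum_nonpos fun x hx => Finset.sum_nonpos fun y hy => ?_
    exact hle x hx y (Finset.mem_of_mem_erase hy) (Finset.ne_of_mem_erase hy).symm
  rcases Nat.eq_zero_or_pos S.card with h0 | h0
  · rw [h0]
    simpa using h1
  · have h3 : (0 : ℝ) < S.card := by exact_mod_cast h0
    have h4 : c 0 * (S.card : ℝ) * (S.card : ℝ) ≤ f 1 * (S.card : ℝ) := by nlinarith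
    exact le_of_mul_le_mul_right h4 h3

/-- Antipodal version: `f` even and `f ≤ 0` at the inner products of `x` and `y ≠ ± x`. -/
theorem card_le_of_cert_anti (c : Fin 8 → ℝ) (hc : ∀ k, 0 ≤ c k) (f : ℝ → ℝ)
    (hf : ∀ t, f t = ∑ k, c k * gp k t) (hev : ∀ t, f (-t) = f t)
    (S : Finset (EuclideanSpace ℝ (Fin 16))) (hS : ∀ x ∈ S, ‖x‖ = 1)
    (hneg : ∀ x ∈ S, -x ∈ S)
    (hle : ∀ x ∈ S, ∀ y ∈ S, x ≠ y → y ≠ -x → f (inner ℝ x y) ≤ 0) (h1 : 0 ≤ f 1) :
    c 0 * (S.card : ℝ) ≤ 2 * f 1 := by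
  classical
  have h := lp_anti c hc f hf hev S hS hneg
  have h2 : ∑ x ∈ S, ∑ y ∈ (S.erase x).erase (-x), f (inner ℝ x y) ≤ 0 := by
    refine Finset.sum_nonpos fun x hx => Finset.sum_nonpos fun y hy => ?_
    have hy2 := Finset.mem_of_mem_erase hy
    exact hle x hx y (Finset.mem_of_mem_erase hy2) (Finset.ne_of_mem_erase hy2).symm
      (Finset.ne_of_mem_erase hy)
  rcases Nat.eq_zero_or_pos S.card with h0 | h0
  · rw [h0]
    have : (0 : ℝ) ≤ 2 * f 1 := by linarith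
    simpa using this
  · have h3 : (0 : ℝ) < S.card := by exact_mod_cast h0
    have h4 : c 0 * (S.card : ℝ) * (S.card : ℝ) ≤ 2 * f 1 * (S.card : ℝ) := by nlinarith
    exact le_of_mul_le_mul_right h4 h3

end Pool.Agent.Kiss34
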